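import Pool.Graph.R_seed8.Y872.L.Defs
import Pool.Graph.R_seed8.H341R2.WeilSharp

/-!
Triples of quadratic residues (MP_b311ff_nt), the local patterns (`S_PAT`): for a prime `p ≥ 5` there is
`x` such that `x, x + a, x + b` are squares modulo `p`, at most one of them zero, by Weil's bound for
`p ≥ 29` and a finite check for the other primes.
-/

set_option autoImplicit false

namespace Pool.Agent.H50.LT

open Finset
open Pool.Agent.Y872.L (Exc QRes S_PAT)

section large

variable {p : ℕ} [Fact p.Prime]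

/-- the quadratic character -/
noncomputable abbrev ch (p : ℕ) [Fact p.Prime] (x : ZMod p) : ℤ := quadraticChar (ZMod p) x

lemma ch_zero : ch p 0 = 0 := quadraticChar_zero

lemma ch_mul (x y : ZMod p) : ch p (x * y) = ch p x * ch p y := map_mul _ _ _

lemma ch_cases {x : ZMod p} (hx : x ≠ 0) : ch p x = 1 ∨ ch p x = -1 := quadraticChar_dichotomy hx

lemma ch_sq {x : ZMod p} (hx : x ≠ 0) : ch p x * ch p x = 1 := by
  rcases ch_cases hx with h | h <;> rw [h] <;> norm_num

lemma ringChar_ne (hp : p ≠ 2) : ringChar (ZMod p) ≠ 2 := by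
  rw [ZMod.ringChar_zmod_n]
  exact hp

lemma sum_one (hp : p ≠ 2) (a : ZMod p) : ∑ x : ZMod p, ch p (x + a) = 0 := by
  rw [← quadraticChar_sum_zero (ringChar_ne hp)]
  exact Equiv.sum_comp (Equiv.addRight a) (fun x => quadraticChar (ZMod p) x)

lemma sum_two (hp : p ≠ 2) {a : ZMod p} (ha : a ≠ 0) :
    ∑ x : ZMod p, ch p x * ch p (x + a) = -1 := by
  classical
  have h1 : ∑ x : ZMod p, ch p x * ch p (x + a) = ∑ x : ZMod p, ch p x⁻¹ * ch p (x⁻¹ + a) :=
    (Equiv.sum_comp (Function.Involutive.toPerm (fun x : ZMod p => x⁻¹) inv_inv)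
      (fun x => ch p x * ch p (x + a))).symm
  have h2 : ∀ x : ZMod p, ch p x⁻¹ * ch p (x⁻¹ + a) = ch p (a * x + 1) - if x = 0 then 1 else 0 := by
    intro x
    by_cases hx : x = 0
    · subst hx
      rw [inv_zero, ch_zero, zero_mul, mul_zero, zero_add, if_pos rfl]
      have : ch p 1 = 1 := map_one _
      rw [this, sub_self]
    · rw [if_neg hx, sub_zero]
      have h3 : x⁻¹ + a = x⁻¹ * (a * x + 1) := by
        field_simp
        ring
      rw [h3, ch_mul, ← mul_assoc, ch_sq (inv_ne_zero hx), one_mul]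
  rw [h1, Finset.sum_congr rfl fun x _ => h2 x, Finset.sum_sub_distrib, Finset.sum_ite_eq' univ,
    if_pos (mem_univ _)]
  have h4 : ∑ x : ZMod p, ch p (a * x + 1) = ∑ x : ZMod p, ch p (x + 1) :=
    Equiv.sum_comp (Equiv.mulLeft₀ a ha) (fun x => ch p (x + 1))
  rw [h4, sum_one hp, zero_sub]

lemma sum_two' (hp : p ≠ 2) {a b : ZMod p} (hab : a ≠ b) :
    ∑ x : ZMod p, ch p (x + a) * ch p (x + b) = -1 := by
  rw [← sum_two hp (sub_ne_zero.2 hab.symm)]
  rw [← Equiv.sum_comp (Equiv.addRight a) (fun x => ch p x * ch p (x + (b - a)))]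
  refine Finset.sum_congr rfl fun x _ => ?_
  simp only [Equiv.coe_addRight]
  rw [show x + a + (b - a) = x + b by ring]

open Polynomial in
lemma sum_three (hp : p ≠ 2) (a b : ZMod p) :
    |∑ x : ZMod p, (ch p x * ch p (x + a) * ch p (x + b) : ℤ)| ≤ 2 * Real.sqrt p := by
  set f : (ZMod p)[X] := X * (X + C a) * (X + C b) with hf
  have hm : f.Monic := (monic_X.mul (monic_X_add_C a)).mul (monic_X_add_C b)
  have hd : f.natDegree = 3 := by
    rw [hf, (monic_X.mul (monic_X_add_C a)).natDegree_mul (monic_X_add_C b),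
      monic_X.natDegree_mul (monic_X_add_C a), natDegree_X, natDegree_X_add_C, natDegree_X_add_C]
  have hns : ∀ (c : ZMod p) (h : (ZMod p)[X]), f ≠ C c * h ^ 2 := by
    intro c h heq
    have hf0 : f ≠ 0 := hm.ne_zero
    have hc : c ≠ 0 := by
      rintro rfl
      rw [C_0, zero_mul] at heq
      exact hf0 heq
    have hh : h ≠ 0 := by
      rintro rfl
      rw [zero_pow two_ne_zero, mul_zero] at heq
      exact hf0 heq
    have h1 : f.natDegree = 2 * h.natDegree := by
      rw [heq, natDegree_C_mul hc, natDegree_pow]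
    omega
  have h := Pool.Agent.H341R2.Sharp.weil_sharp (ringChar_ne hp) f (by omega) hns
  rw [hd, ZMod.card] at h
  have h3 : ((∑ x : ZMod p, (ch p x * ch p (x + a) * ch p (x + b) : ℤ) : ℤ) : ℝ) =
      ∑ x : ZMod p, (quadraticChar (ZMod p) (f.eval x) : ℝ) := by
    push_cast
    refine Finset.sum_congr rfl fun x _ => ?_
    rw [hf, eval_mul, eval_mul, eval_X, eval_add, eval_add, eval_X, eval_C, eval_C, map_mul,
      map_mul]
    push_cast
    rfl
  have h4 : ((|∑ x : ZMod p, (ch p x * ch p (x + a) * ch p (x + b) : ℤ)| : ℤ) : ℝ) =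
      |((∑ x : ZMod p, (ch p x * ch p (x + a) * ch p (x + b) : ℤ) : ℤ) : ℝ)| := by
    push_cast
    rfl
  rw [h4, h3]
  refine h.trans (le_of_eq ?_)
  norm_num

lemma exists_large (hp : 29 ≤ p) {a b : ZMod p} (ha : a ≠ 0) (hb : b ≠ 0) (hab : a ≠ b) :
    ∃ x : ZMod p, ch p x = 1 ∧ ch p (x + a) = 1 ∧ ch p (x + b) = 1 := by
  classical
  by_contra hno
  push Not at hno
  have hp2 : p ≠ 2 := by omega
  have hle1 : ∀ x : ZMod p, ch p x ≤ 1 ∧ -1 ≤ ch p x := by
    intro x
    by_cases hx : x = 0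
    · rw [hx, ch_zero]; norm_num
    · rcases ch_cases hx with h | h <;> rw [h] <;> norm_num
  have hpt : ∀ x : ZMod p, (1 + ch p x) * (1 + ch p (x + a)) * (1 + ch p (x + b)) ≤
      (if x = 0 then 4 else 0) + (if x = -a then 4 else 0) + (if x = -b then 4 else 0) := by
    intro x
    have k1 := hle1 x
    have k2 := hle1 (x + a)
    have k3 := hle1 (x + b)
    by_cases h0 : x = 0
    · have e : ch p x = 0 := by rw [h0, ch_zero]
      rw [e, if_pos h0]
      have h1 : (1 + ch p (x + a)) * (1 + ch p (x + b)) ≤ 2 * 2 :=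
        mul_le_mul (by omega) (by omega) (by omega) (by norm_num)
      have h2 : (0 : ℤ) ≤ (if x = -a then 4 else 0) := by split_ifs <;> norm_num
      have h3 : (0 : ℤ) ≤ (if x = -b then 4 else 0) := by split_ifs <;> norm_num
      linarith
    · by_cases h1 : x = -a
      · have e : ch p (x + a) = 0 := by rw [h1, neg_add_cancel, ch_zero]
        rw [e, if_pos h1, if_neg h0]
        have h4 : (1 + ch p x) * (1 + ch p (x + b)) ≤ 2 * 2 :=
          mul_le_mul (by omega) (by omega) (by omega) (by norm_num)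
        have h3 : (0 : ℤ) ≤ (if x = -b then 4 else 0) := by split_ifs <;> norm_num
        linarith
      · by_cases h2 : x = -b
        · have e : ch p (x + b) = 0 := by rw [h2, neg_add_cancel, ch_zero]
          rw [e, if_pos h2, if_neg h0, if_neg h1]
          have h4 : (1 + ch p x) * (1 + ch p (x + a)) ≤ 2 * 2 :=
            mul_le_mul (by omega) (by omega) (by omega) (by norm_num)
          linarith
        · rw [if_neg h0, if_neg h1, if_neg h2]
          have n1 : x + a ≠ 0 := fun h => h1 (eq_neg_of_add_eq_zero_left h)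
          have n2 : x + b ≠ 0 := fun h => h2 (eq_neg_of_add_eq_zero_left h)
          rcases ch_cases h0 with c0 | c0
          · rcases ch_cases n1 with c1 | c1
            · rcases ch_cases n2 with c2 | c2
              · exact absurd c2 (hno x c0 c1)
              · rw [c2]; norm_num
            · rw [c1]; norm_num
          · rw [c0]; norm_num
  have hsum := Finset.sum_le_sum fun x (_ : x ∈ (univ : Finset (ZMod p))) => hpt x
  rw [Finset.sum_add_distrib, Finset.sum_add_distrib, Finset.sum_ite_eq' univ,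
    Finset.sum_ite_eq' univ, Finset.sum_ite_eq' univ, if_pos (mem_univ _), if_pos (mem_univ _),
    if_pos (mem_univ _)] at hsum
  have hexp : ∑ x : ZMod p, (1 + ch p x) * (1 + ch p (x + a)) * (1 + ch p (x + b)) =
      (p : ℤ) - 3 + ∑ x : ZMod p, (ch p x * ch p (x + a) * ch p (x + b)) := by
    have e : ∀ x : ZMod p, (1 + ch p x) * (1 + ch p (x + a)) * (1 + ch p (x + b)) =
        1 + ch p x + ch p (x + a) + ch p (x + b) + ch p x * ch p (x + a) + ch p x * ch p (x + b) +
          ch p (x + a) * ch p (x + b) + ch p x * ch p (x + a) * ch p (x + b) := by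
      intro x; ring
    rw [Finset.sum_congr rfl fun x _ => e x]
    simp only [Finset.sum_add_distrib]
    rw [sum_two hp2 ha, sum_two hp2 hb, sum_two' hp2 hab, sum_one hp2 a, sum_one hp2 b]
    have h0 : ∑ x : ZMod p, ch p x = 0 := quadraticChar_sum_zero (ringChar_ne hp2)
    rw [h0, Finset.sum_const, card_univ, ZMod.card]
    simp only [nsmul_eq_mul, mul_one]
    ring
  rw [hexp] at hsum
  have h3 := sum_three hp2 a b
  have h4 : (p : ℤ) - 15 ≤ |∑ x : ZMod p, (ch p x * ch p (x + a) * ch p (x + b) : ℤ)| := by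
    have := neg_abs_le (∑ x : ZMod p, (ch p x * ch p (x + a) * ch p (x + b) : ℤ))
    linarith
  have h5 : ((p : ℝ) - 15) ≤ 2 * Real.sqrt p := by
    refine le_trans ?_ h3
    exact_mod_cast h4
  have h6 : (5 : ℝ) < Real.sqrt p := by
    rw [Real.lt_sqrt (by norm_num)]
    have : (29 : ℝ) ≤ p := by exact_mod_cast hp
    linarith
  have h7 : Real.sqrt p * Real.sqrt p = p := Real.mul_self_sqrt (Nat.cast_nonneg _)
  nlinarith

lemma param (hp : 5 ≤ p) {c : ZMod p} (hc : c ≠ 0) : ∃ s t : ZMod p, s ≠ 0 ∧ s ^ 2 + c = t ^ 2 := by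
  have h2 : (2 : ZMod p) ≠ 0 := by
    intro h
    have h' : ((2 : ℕ) : ZMod p) = 0 := by exact_mod_cast h
    rw [ZMod.natCast_eq_zero_iff] at h'
    have := Nat.le_of_dvd (by norm_num) h'
    omega
  have h3 : (3 : ZMod p) ≠ 0 := by
    intro h
    have h' : ((3 : ℕ) : ZMod p) = 0 := by exact_mod_cast h
    rw [ZMod.natCast_eq_zero_iff] at h'
    have := Nat.le_of_dvd (by norm_num) h'
    omega
  by_cases h1 : c = 1
  · refine ⟨3 / 2 / 2, 5 / 2 / 2, ?_, ?_⟩
    · exact div_ne_zero (div_ne_zero h3 h2) h2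
    · rw [h1]
      field_simp
      ring
  · refine ⟨(c - 1) / 2, (c + 1) / 2, div_ne_zero (sub_ne_zero.2 h1) h2, ?_⟩
    field_simp
    ring

lemma qres_of {r : ℕ} {s : ZMod p} (h : s ^ 2 = (r : ZMod p)) : p ∣ r ∨ QRes p r := by
  by_cases hr : p ∣ r
  · exact Or.inl hr
  · refine Or.inr ⟨hr, s.val, ?_⟩
    rw [← ZMod.natCast_eq_natCast_iff]
    push_cast
    rw [ZMod.natCast_zmod_val, h]

lemma sq_of_ch {x : ZMod p} (h : ch p x = 1) : ∃ s : ZMod p, s ^ 2 = x := by
  have hx : x ≠ 0 := by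
    rintro rfl
    rw [ch_zero] at h
    norm_num at h
  obtain ⟨s, hs⟩ := (quadraticChar_one_iff_isSquare hx).1 h
  exact ⟨s, by rw [hs, sq]⟩

lemma pat_large (hp : 29 ≤ p) (a b : ℕ) : ∃ x : ℕ,
    (p ∣ x ∨ QRes p x) ∧ (p ∣ x + a ∨ QRes p (x + a)) ∧ (p ∣ x + b ∨ QRes p (x + b)) ∧
    ¬ (p ∣ x ∧ p ∣ x + a) ∧ ¬ (p ∣ x ∧ p ∣ x + b) ∧ ¬ (p ∣ x + a ∧ p ∣ x + b) := by
  -- it suffices to find three squares in `ZMod p`
  have key : ∀ x : ZMod p, (∃ s, s ^ 2 = x) → (∃ s, s ^ 2 = x + a) → (∃ s, s ^ 2 = x + b) →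
      ¬ (x = 0 ∧ x + a = 0) → ¬ (x = 0 ∧ x + b = 0) → ¬ (x + a = 0 ∧ x + b = 0) → ∃ x : ℕ,
      (p ∣ x ∨ QRes p x) ∧ (p ∣ x + a ∨ QRes p (x + a)) ∧ (p ∣ x + b ∨ QRes p (x + b)) ∧
      ¬ (p ∣ x ∧ p ∣ x + a) ∧ ¬ (p ∣ x ∧ p ∣ x + b) ∧ ¬ (p ∣ x + a ∧ p ∣ x + b) := by
    intro x h1 h2 h3 h4 h5 h6
    have e : ((x.val : ℕ) : ZMod p) = x := ZMod.natCast_zmod_val x
    have e1 : ((x.val + a : ℕ) : ZMod p) = x + a := by push_cast; rw [e]
    have e2 : ((x.val + b : ℕ) : ZMod p) = x + b := by push_cast; rw [e]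
    obtain ⟨s, hs⟩ := h1
    obtain ⟨s', hs'⟩ := h2
    obtain ⟨s'', hs''⟩ := h3
    refine ⟨x.val, qres_of (hs.trans e.symm), qres_of (hs'.trans e1.symm),
      qres_of (hs''.trans e2.symm), ?_, ?_, ?_⟩
    · rw [← ZMod.natCast_eq_zero_iff, ← ZMod.natCast_eq_zero_iff, e, e1]; exact h4
    · rw [← ZMod.natCast_eq_zero_iff, ← ZMod.natCast_eq_zero_iff, e, e2]; exact h5
    · rw [← ZMod.natCast_eq_zero_iff, ← ZMod.natCast_eq_zero_iff, e1, e2]; exact h6
  by_cases ha : (a : ZMod p) = 0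
  · by_cases hb : (b : ZMod p) = 0
    · refine key 1 ⟨1, one_pow 2⟩ ⟨1, by rw [ha]; ring⟩ ⟨1, by rw [hb]; ring⟩ ?_ ?_ ?_
      · rintro ⟨h, -⟩; exact one_ne_zero h
      · rintro ⟨h, -⟩; exact one_ne_zero h
      · rintro ⟨h, -⟩; rw [ha, add_zero] at h; exact one_ne_zero h
    · obtain ⟨s, t, hs, hst⟩ := param (by omega : 5 ≤ p) hb
      have hs2 : s ^ 2 ≠ 0 := pow_ne_zero 2 hs
      refine key (s ^ 2) ⟨s, rfl⟩ ⟨s, by rw [ha, add_zero]⟩ ⟨t, hst.symm⟩ ?_ ?_ ?_
      · rintro ⟨h, -⟩; exact hs2 h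
      · rintro ⟨h, -⟩; exact hs2 h
      · rintro ⟨h, -⟩; rw [ha, add_zero] at h; exact hs2 h
  · by_cases hb : (b : ZMod p) = 0
    · obtain ⟨s, t, hs, hst⟩ := param (by omega : 5 ≤ p) ha
      have hs2 : s ^ 2 ≠ 0 := pow_ne_zero 2 hs
      refine key (s ^ 2) ⟨s, rfl⟩ ⟨t, hst.symm⟩ ⟨s, by rw [hb, add_zero]⟩ ?_ ?_ ?_
      · rintro ⟨h, -⟩; exact hs2 h
      · rintro ⟨h, -⟩; exact hs2 h
      · rintro ⟨-, h⟩; rw [hb, add_zero] at h; exact hs2 h
    · by_cases hab : (a : ZMod p) = b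
      · obtain ⟨t, s, ht, hst⟩ := param (by omega : 5 ≤ p) (neg_ne_zero.2 ha)
        have ht2 : t ^ 2 ≠ 0 := pow_ne_zero 2 ht
        have e : s ^ 2 + (a : ZMod p) = t ^ 2 := by rw [← hst]; ring
        refine key (s ^ 2) ⟨s, rfl⟩ ⟨t, e.symm⟩ ⟨t, by rw [← hab, e]⟩ ?_ ?_ ?_
        · rintro ⟨-, h⟩; rw [e] at h; exact ht2 h
        · rintro ⟨-, h⟩; rw [← hab, e] at h; exact ht2 h
        · rintro ⟨h, -⟩; rw [e] at h; exact ht2 h
      · obtain ⟨x, h1, h2, h3⟩ := exists_large hp ha hb hab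
        have n : ∀ {y : ZMod p}, ch p y = 1 → y ≠ 0 := by
          rintro y hy rfl
          rw [ch_zero] at hy
          norm_num at hy
        refine key x (sq_of_ch h1) (sq_of_ch h2) (sq_of_ch h3) ?_ ?_ ?_
        · rintro ⟨h, -⟩; exact n h1 h
        · rintro ⟨h, -⟩; exact n h1 h
        · rintro ⟨h, -⟩; exact n h2 h

end large

/-! ### The primes below 29 -/

/-- `y` is a square modulo `p` (`L` is the list of the squares modulo `p`) -/
def gd (L : List ℕ) (p y : ℕ) : Bool := L.contains (y % p)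

/-- the pattern -/
def gp (L : List ℕ) (p a b x : ℕ) : Bool :=
  gd L p x && gd L p (x + a) && gd L p (x + b) &&
    !(x % p == 0 && (x + a) % p == 0) && !(x % p == 0 && (x + b) % p == 0) &&
    !((x + a) % p == 0 && (x + b) % p == 0)

/-- the finite check -/
def chk (L : List ℕ) (p : ℕ) (ex : List (ℕ × ℕ)) : Bool :=
  (List.range p).all fun a => (List.range p).all fun b =>
    ex.contains (a, b) || (List.range p).any fun x => gp L p a b x

/-- the squares modulo `p` -/
def sqs (p : ℕ) : List ℕ := (List.range p).map fun z => z * z % p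

lemma gd_spec {p y : ℕ} (h : gd (sqs p) p y = true) : p ∣ y ∨ QRes p y := by
  unfold gd sqs at h
  rw [List.contains_iff_mem, List.mem_map] at h
  obtain ⟨z, -, hz⟩ := h
  by_cases hy : p ∣ y
  · exact Or.inl hy
  · refine Or.inr ⟨hy, z, ?_⟩
    rw [sq]
    exact hz

lemma chk_spec {p : ℕ} (hp : 0 < p) {ex : List (ℕ × ℕ)} (h : chk (sqs p) p ex = true) (a b : ℕ)
    (hab : (a % p, b % p) ∉ ex) : ∃ x : ℕ,
    (p ∣ x ∨ QRes p x) ∧ (p ∣ x + a ∨ QRes p (x + a)) ∧ (p ∣ x + b ∨ QRes p (x + b)) ∧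
    ¬ (p ∣ x ∧ p ∣ x + a) ∧ ¬ (p ∣ x ∧ p ∣ x + b) ∧ ¬ (p ∣ x + a ∧ p ∣ x + b) := by
  unfold chk at h
  rw [List.all_eq_true] at h
  have h1 := h (a % p) (List.mem_range.2 (Nat.mod_lt _ hp))
  rw [List.all_eq_true] at h1
  have h2 := h1 (b % p) (List.mem_range.2 (Nat.mod_lt _ hp))
  rw [Bool.or_eq_true] at h2
  rcases h2 with h2 | h2
  · rw [List.contains_iff_mem] at h2
    exact absurd h2 hab
  · rw [List.any_eq_true] at h2
    obtain ⟨x, -, hx⟩ := h2
    unfold gp at hx
    simp only [Bool.and_eq_true, Bool.not_eq_true', Bool.and_eq_false_iff, beq_iff_eq,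
      beq_eq_false_iff_ne, ne_eq] at hx
    obtain ⟨⟨⟨⟨⟨q1, q2⟩, q3⟩, q4⟩, q5⟩, q6⟩ := hx
    have ma : (x + a % p) % p = (x + a) % p := Nat.add_mod_mod _ _ _
    have mb : (x + b % p) % p = (x + b) % p := Nat.add_mod_mod _ _ _
    have g1 : gd (sqs p) p (x + a) = true := by
      unfold gd at q2 ⊢
      rwa [ma] at q2
    have g2 : gd (sqs p) p (x + b) = true := by
      unfold gd at q3 ⊢
      rwa [mb] at q3
    rw [ma] at q4 q6
    rw [mb] at q5 q6
    refine ⟨x, gd_spec q1, gd_spec g1, gd_spec g2, ?_, ?_, ?_⟩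
    · rintro ⟨h3, h4⟩
      rcases q4 with q | q
      · exact q (Nat.mod_eq_zero_of_dvd h3)
      · exact q (Nat.mod_eq_zero_of_dvd h4)
    · rintro ⟨h3, h4⟩
      rcases q5 with q | q
      · exact q (Nat.mod_eq_zero_of_dvd h3)
      · exact q (Nat.mod_eq_zero_of_dvd h4)
    · rintro ⟨h3, h4⟩
      rcases q6 with q | q
      · exact q (Nat.mod_eq_zero_of_dvd h3)
      · exact q (Nat.mod_eq_zero_of_dvd h4)

set_option maxRecDepth 100000 in
lemma chk5 : chk (sqs 5) 5 [(1, 3), (3, 1), (2, 3), (3, 2), (2, 4), (4, 2)] = true := by decide +kernel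

set_option maxRecDepth 100000 in
lemma chk7 : chk (sqs 7) 7 [(1, 5), (5, 1), (2, 3), (3, 2), (4, 6), (6, 4)] = true := by decide +kernel

set_option maxRecDepth 100000 in
lemma chk11 : chk (sqs 11) 11 [] = true := by decide +kernel

set_option maxRecDepth 100000 in
lemma chk13 : chk (sqs 13) 13 [] = true := by decide +kernel

set_option maxRecDepth 100000 in
lemma chk17 : chk (sqs 17) 17 [] = true := by decide +kernel

set_option maxRecDepth 100000 in
lemma chk19 : chk (sqs 19) 19 [] = true := by decide +kernel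

set_option maxRecDepth 100000 in
lemma chk23 : chk (sqs 23) 23 [] = true := by decide +kernel

theorem pat : S_PAT := by
  intro p hp h5 a b hex
  by_cases hl : 29 ≤ p
  · haveI : Fact p.Prime := ⟨hp⟩
    exact pat_large hl a b
  · have hcases : p = 5 ∨ p = 7 ∨ p = 11 ∨ p = 13 ∨ p = 17 ∨ p = 19 ∨ p = 23 := by
      have hlt : p < 29 := by omega
      interval_cases p <;> first | (exfalso; revert hp; norm_num; done) | decide
    rcases hcases with rfl | rfl | rfl | rfl | rfl | rfl | rfl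
    · refine chk_spec (by norm_num) chk5 a b fun h => hex ?_
      unfold Exc
      refine Or.inr (Or.inl ?_)
      simpa using h
    · refine chk_spec (by norm_num) chk7 a b fun h => hex ?_
      unfold Exc
      refine Or.inr (Or.inr ?_)
      simpa using h
    · exact chk_spec (by norm_num) chk11 a b (by simp)
    · exact chk_spec (by norm_num) chk13 a b (by simp)
    · exact chk_spec (by norm_num) chk17 a b (by simp)
    · exact chk_spec (by norm_num) chk19 a b (by simp)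
    · exact chk_spec (by norm_num) chk23 a b (by simp)

end Pool.Agent.H50.LT
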