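import Pool.Graph.R_seed8.Y122.LT.LowC
import Pool.Graph.R_seed8.Y290.LT.Sup
import Pool.Graph.R_seed8.Y290.LT.D
import Pool.Graph.R_seed8.Y474.LT.U
import Pool.Graph.R_seed8.Y814.LT.Low
import Pool.Graph.R_seed8.Y814.LT.F
import Pool.Graph.R_seed8.Y642.LT.E3
import Pool.Graph.R_seed8.Y815.LT.Cpt
import Pool.Graph.R_seed8.Y815.LT.Loc
import Pool.Graph.R_seed8.Y917.LT.Pret
import Pool.Graph.R_seed8.Y872.L.Mean
import Pool.Agent.H50.LT.Pat

/-!
Triples of quadratic residues (MP_b311ff_nt), the assembly of project LT.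
-/

set_option autoImplicit false

namespace Pool.Agent.H50.LT

open Pool.Agent.Y872.L (Exc QRes CM NonPret)

/-- every completely multiplicative `f` with values `±1` takes the value `1` at some `n, n+a, n+b` -/
theorem cm_triple {f : ℕ → ℤ} (hf : CM f) {a b : ℕ} (ha : 0 < a) (hab : a < b) (hE : ¬ Exc a b) :
    ∃ n : ℕ, 0 < n ∧ f n = 1 ∧ f (n + a) = 1 ∧ f (n + b) = 1 := by
  by_cases hn : NonPret f
  · have hlow := Pool.Agent.Y814.LT.low Pool.Agent.Y290.LT.Sup.sup Pool.Agent.Y122.LT.lowc f hf hn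
    obtain ⟨μ, hR, hm⟩ := Pool.Agent.Y872.L.exists_mean f hf hlow
    have hU := Pool.Agent.Y474.LT.uu_of_rr μ f hf hR
    have hEE := Pool.Agent.Y642.LT.ee_of_uu μ f hf hU
    have hD := Pool.Agent.Y290.LT.D.c2_zero μ f hf hEE
    exact Pool.Agent.Y814.LT.fin μ f hf hm hD a b ha hab
  · unfold Pool.Agent.Y872.L.NonPret at hn
    push Not at hn
    obtain ⟨Q, hQ, χ, hχ, hp⟩ := hn
    exact Pool.Agent.Y917.LT.pret (Pool.Agent.Y815.LT.loc pat) f hf Q hQ χ hχ hp a b ha hab hE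

/-- the threshold is finite for every pair that is not exceptional -/
theorem threshold {a b : ℕ} (ha : 0 < a) (hab : a < b) (hE : ¬ Exc a b) :
    ∃ N p₀ : ℕ, ∀ p : ℕ, p.Prime → p₀ < p →
      ∃ r : ℕ, 1 ≤ r ∧ r ≤ N ∧ QRes p r ∧ QRes p (r + a) ∧ QRes p (r + b) := by
  by_contra hc
  push Not at hc
  obtain ⟨f, hf, hno⟩ := Pool.Agent.Y815.LT.cpt a b (fun N p₀ => by
    obtain ⟨p, hp, hpp, h⟩ := hc N p₀
    exact ⟨p, hp, hpp, fun r h1 h2 h3 => h r h1 h2 h3.1 h3.2.1 h3.2.2⟩)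
  obtain ⟨n, hn, h⟩ := cm_triple hf ha hab hE
  exact hno n hn h

end Pool.Agent.H50.LT
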